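import Pool.Agent.V11237.SXT.Shape

set_option autoImplicit false

/-!
# Self-avoiding polygons on `ℤ²` of every area at a given width

For every `t > 0` and every scale `L` there is a perimeter `m` between `L / K` and `K L ^ 2` for which the
uniform self-avoiding polygon of perimeter `m` encloses the area `t L ^ 2 (1 ± ε)` and has the width
`L (1 ± ε)`, with probability at least `exp (- K (log m) ^ 2)`.
-/

namespace Pool.Agent.Results.MP_f6626d_co.AreaAndWidth

/-- a closed nearest-neighbour loop on `ℤ²` with `m` steps, rooted at the origin and oriented,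
that visits no vertex twice -/
def IsLoop (m : ℕ) (f : ZMod m → ℤ × ℤ) : Prop :=
  f 0 = 0 ∧ Function.Injective f ∧
    ∀ i : ZMod m, |(f (i + 1)).1 - (f i).1| + |(f (i + 1)).2 - (f i).2| = 1

/-- the edge from `f k` to `f (k+1)` is horizontal, joins the columns `x = a` and `x = a + 1`, and
has height larger than `b`: it lies above the unit cell `[a, a+1] × [b, b+1]` -/
def Above (m : ℕ) (f : ZMod m → ℤ × ℤ) (a b : ℤ) (k : ZMod m) : Prop :=
  (((f k).1 = a ∧ (f (k + 1)).1 = a + 1) ∨ ((f k).1 = a + 1 ∧ (f (k + 1)).1 = a)) ∧ b < (f k).2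

/-- the unit cell `[a, a+1] × [b, b+1]` is enclosed by the loop: the vertical ray from the cell
upwards crosses an odd number of edges -/
def Encl (m : ℕ) (f : ZMod m → ℤ × ℤ) (c : ℤ × ℤ) : Prop :=
  Odd (Nat.card {k : ZMod m // Above m f c.1 c.2 k})

/-- the area: the number of unit cells enclosed by the loop -/
noncomputable def area (m : ℕ) (f : ZMod m → ℤ × ℤ) : ℕ := Nat.card {c : ℤ × ℤ // Encl m f c}

/-- the width (horizontal extent) of a loop -/
noncomputable def width (m : ℕ) (f : ZMod m → ℤ × ℤ) : ℕ :=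
  sSup {w : ℕ | ∃ i j, w = ((f i).1 - (f j).1).natAbs}

/-- the proportion of the self-avoiding polygons of perimeter `m` with the property `P` -/
noncomputable def prob (m : ℕ) (P : (ZMod m → ℤ × ℤ) → Prop) : ℝ :=
  ({f : ZMod m → ℤ × ℤ | IsLoop m f ∧ P f}.ncard : ℝ) / ({f : ZMod m → ℤ × ℤ | IsLoop m f}.ncard : ℝ)

/-- **Polygons of every area at a given width.** -/
theorem result (t : ℝ) (ht : 0 < t) (ε : ℝ) (hε : 0 < ε) : ∃ K : ℝ, ∀ L : ℝ, K ≤ L →
    ∃ m : ℕ, L / K ≤ m ∧ (m : ℝ) ≤ K * L ^ 2 ∧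
      Real.exp (-(K * Real.log m ^ 2)) ≤ prob m (fun f =>
        |(area m f : ℝ) - t * L ^ 2| ≤ ε * L ^ 2 ∧ |(width m f : ℝ) - L| ≤ ε * L) := by
  obtain ⟨K, hK, h⟩ := Pool.Agent.V11237.SXT.shape_prob t ht ε hε
  refine ⟨K, ?_⟩
  intro L hL
  obtain ⟨m, m2, m3, m4, m5⟩ := h L hL
  refine ⟨m, ?_, m4, ?_⟩
  · rw [div_le_iff₀ (by linarith)]
    linarith
  · exact m5.trans (Pool.Agent.V11237.SXT.lprob_mono (by omega) fun f _ hf => ⟨hf.2.2, hf.1⟩)

end Pool.Agent.Results.MP_f6626d_co.AreaAndWidth
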