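import Pool.Agent.V11252.SAW.AreaGen

/-!
# The polygons of large area, uniformly up to the critical point

Let `p_{2n} (k)` be the number of self-avoiding polygons of perimeter `2 n` and area at least `k²` on the
square lattice, up to translation, `1 / μ` the critical point and `ξ (z)` the correlation length of the
self-avoiding walk (the inverse of the decay rate of its two-point function along the axis).  Then
`exp (- 4 k / ξ (z) - K Λ²) ≤ ∑_{n ≥ 2} p_{2n} (k) z^(2n) ≤ exp (- 2 k / ξ (z) + K Λ²)`,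
`Λ = log (2 + k + 1 / (1/μ - z))`, with one constant for all `k ≥ 1` and all `z` in `[z₀, 1/μ)`: in the
ensemble of polygons of random perimeter with weight `z` per step, the area is governed by the square
of the correlation length of the walk, at all scales and uniformly up to the critical point.

The proof uses the comparison of area and width at fixed perimeter and the large deviations of the
width (the starting libraries `Pool.Agent.Y981.L2.Area5`, `Pool.Agent.Y981.L2.PolyE`), the bounds for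
`p_{2n}` (`Pool.Agent.TH508.LT`), Legendre duality, and a contraction argument for the sum over `n`
(`Pool.Agent.V11252.SAW.PolyGen`).
-/

set_option autoImplicit false

namespace Pool.Agent.Results.MP_f6626d_co.AreaSeries

open Filter Topology
open Pool.Agent

/-- a closed nearest-neighbour loop on `ℤ²` with `m` steps, rooted at the origin and oriented,
that visits no vertex twice -/
def IsLoop (m : ℕ) (f : ZMod m → ℤ × ℤ) : Prop :=
  f 0 = 0 ∧ Function.Injective f ∧
    ∀ i : ZMod m, |(f (i + 1)).1 - (f i).1| + |(f (i + 1)).2 - (f i).2| = 1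

/-- the edge from `f k` to `f (k+1)` is horizontal, joins the columns `x = a` and `x = a + 1`, and
has height larger than `b`: it lies above the unit cell `[a, a+1] × [b, b+1]` -/
def Above (m : ℕ) (f : ZMod m → ℤ × ℤ) (a b : ℤ) (k : ZMod m) : Prop :=
  (((f k).1 = a ∧ (f (k + 1)).1 = a + 1) ∨ ((f k).1 = a + 1 ∧ (f (k + 1)).1 = a)) ∧ b < (f k).2

/-- the unit cell `[a, a+1] × [b, b+1]` is enclosed by the loop: the vertical ray from the cell
upwards crosses an odd number of edges -/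
def Encl (m : ℕ) (f : ZMod m → ℤ × ℤ) (c : ℤ × ℤ) : Prop :=
  Odd (Nat.card {k : ZMod m // Above m f c.1 c.2 k})

/-- the area: the number of unit cells enclosed by the loop -/
noncomputable def area (m : ℕ) (f : ZMod m → ℤ × ℤ) : ℕ := Nat.card {c : ℤ × ℤ // Encl m f c}

/-- `p_{2n}`: the number of self-avoiding polygons of perimeter `2 n` up to translation: the number
of rooted oriented loops divided by `4 n`, the number of choices of the root and the orientation -/
noncomputable def p (n : ℕ) : ℝ :=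
  ({f : ZMod (2 * n) → ℤ × ℤ | IsLoop (2 * n) f}.ncard : ℝ) / (4 * n)

/-- `p_{2n}(k)`: the number of those with area at least `k²` -/
noncomputable def pa (n k : ℕ) : ℝ :=
  ({f : ZMod (2 * n) → ℤ × ℤ | IsLoop (2 * n) f ∧ k ^ 2 ≤ area (2 * n) f}.ncard : ℝ) / (4 * n)

/-- `ω` is an `n`-step self-avoiding walk on `ℤ²` started at the origin. -/
def IsSAW (n : ℕ) (ω : Fin (n + 1) → ℤ × ℤ) : Prop :=
  ω 0 = (0, 0) ∧
  (∀ i : Fin n, |(ω i.succ).1 - (ω i.castSucc).1| + |(ω i.succ).2 - (ω i.castSucc).2| = 1) ∧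
  Function.Injective ω

/-- `c_n`: the number of `n`-step self-avoiding walks from the origin -/
noncomputable def c (n : ℕ) : ℕ := Nat.card {ω : Fin (n + 1) → ℤ × ℤ // IsSAW n ω}

/-- `c_n(x)`: the number of `n`-step self-avoiding walks from the origin to `x` -/
noncomputable def cx (n : ℕ) (x : ℤ × ℤ) : ℕ :=
  Nat.card {ω : Fin (n + 1) → ℤ × ℤ // IsSAW n ω ∧ ω (Fin.last n) = x}

/-- the two-point function `G_z(x) = ∑_n c_n(x) z^n` -/
noncomputable def G (z : ℝ) (x : ℤ × ℤ) : ℝ := ∑' n : ℕ, (cx n x : ℝ) * z ^ n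

theorem c_eq (n : ℕ) : c n = TH795.EP.c n := TH795.EP2.card_walks n

theorem cx_eq (n : ℕ) (x : ℤ × ℤ) : cx n x = TH795.EP.a n x.1 x.2 := TH795.EP2.card_walks_to n x

theorem G_eq (z : ℝ) (x y : ℤ) : G z (x, y) = Y981.L2.Gz z x y := by
  unfold G Y981.L2.Gz
  apply tsum_congr
  intro n
  rw [cx_eq]

theorem p_eq (n : ℕ) : p n = H981.PP n := rfl

theorem pa_eq {n : ℕ} (hn : 2 ≤ n) (k : ℕ) : pa n k = V11252.SAW.ak n k := by
  have hn0 : (0 : ℝ) < n := by exact_mod_cast (by omega : 0 < n)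
  have h1 := V11252.SAW.Lps_pos hn
  unfold V11252.SAW.ak Y981.L2.par
  rw [← p_eq]
  have e1 : {f : ZMod (2 * n) → ℤ × ℤ | IsLoop (2 * n) f ∧ k ^ 2 ≤ area (2 * n) f} =
      {f : ZMod (2 * n) → ℤ × ℤ | H981.IsLoop (2 * n) f ∧
        (k : ℝ) ^ 2 ≤ (Y981.L2.area (2 * n) f : ℝ)} := by
    ext f
    simp only [Set.mem_ofPred_eq]
    constructor
    · rintro ⟨h2, h3⟩
      exact ⟨h2, by exact_mod_cast h3⟩
    · rintro ⟨h2, h3⟩
      exact ⟨h2, by exact_mod_cast h3⟩
  have e2 : p n = ((V11252.SAW.Lps n).ncard : ℝ) / (4 * n) := rfl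
  have e3 : (({f : ZMod (2 * n) → ℤ × ℤ | H981.IsLoop (2 * n) f}.ncard : ℕ) : ℝ) =
      ((V11252.SAW.Lps n).ncard : ℝ) := rfl
  unfold pa
  rw [e1, e2, e3]
  field_simp

/-- **Main result.** Let `μ = lim c_n^(1/n)`.  For `0 < z < 1/μ` the correlation length
`ξ(z) = (lim_j - (1/j) log G_z((j, 0)))^(-1)` of the self-avoiding walk exists and is positive and
finite.  For every `z₀ > 0` there is `K` such that for **all** `z ∈ [z₀, 1/μ)` and **all** `k ≥ 1`, with
`Λ = log (2 + k + 1 / (1/μ - z))`: the series `∑_{n ≥ 2} p_{2n}(k) z^(2n)` of the polygons with area at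
least `k²` converges, and
`exp (- 4 k / ξ(z) - K Λ²) ≤ ∑_{n ≥ 2} p_{2n}(k) z^(2n) ≤ exp (- 2 k / ξ(z) + K Λ²)`. -/
theorem result : ∃ (μ : ℝ) (ξ : ℝ → ℝ), 0 < μ ∧
    Tendsto (fun n : ℕ => (c n : ℝ) ^ (1 / (n : ℝ))) atTop (𝓝 μ) ∧
    (∀ z : ℝ, 0 < z → z < 1 / μ → 0 < ξ z ∧
      Tendsto (fun j : ℕ => - Real.log (G z ((j : ℤ), 0)) / j) atTop (𝓝 (1 / ξ z))) ∧
    ∀ z₀ : ℝ, 0 < z₀ → ∃ K : ℝ, ∀ z : ℝ, z₀ ≤ z → z < 1 / μ → ∀ k : ℕ, 1 ≤ k →
      Summable (fun n : ℕ => pa (n + 2) k * z ^ (2 * (n + 2))) ∧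
      Real.exp (-(4 * k / ξ z) - K * Real.log (2 + k + 1 / (1 / μ - z)) ^ 2) ≤
        ∑' n : ℕ, pa (n + 2) k * z ^ (2 * (n + 2)) ∧
      ∑' n : ℕ, pa (n + 2) k * z ^ (2 * (n + 2)) ≤
        Real.exp (-(2 * k / ξ z) + K * Real.log (2 + k + 1 / (1 / μ - z)) ^ 2) := by
  have hmu := H981.mu_pos
  have hGA : ∀ (z : ℝ) (k : ℕ), ∑' n : ℕ, pa (n + 2) k * z ^ (2 * (n + 2)) =
      V11252.SAW.GA z k := by
    intro z k
    unfold V11252.SAW.GA
    apply tsum_congr
    intro n
    rw [pa_eq (by omega)]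
  have hpos : ∀ z : ℝ, 0 < z → z < 1 / H981.mu → 0 < -Real.log (z * H981.mu) := by
    intro z hz hz1
    have h1 : z * H981.mu < 1 := by rwa [lt_div_iff₀ hmu] at hz1
    have h2 := Real.log_neg (mul_pos hz hmu) h1
    linarith
  have hlz : ∀ z : ℝ, 0 < z → Real.log z + Real.log H981.mu = -(-Real.log (z * H981.mu)) := by
    intro z hz
    rw [Real.log_mul hz.ne' hmu.ne', neg_neg]
  refine ⟨H981.mu, Y981.L2.xi, hmu, ?_, ?_, ?_⟩
  · have h := H981.tendsto_root
    refine h.congr ?_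
    intro n
    rw [c_eq, TH795.EP.c_eq]
  · intro z hz hz1
    have he := hpos z hz hz1
    have hm := Y981.L2.mass_pos he
    refine ⟨?_, ?_⟩
    · unfold Y981.L2.xi
      positivity
    · have h := Y981.L2.G_tendsto hz hz1
      unfold Y981.L2.xi
      rw [one_div_one_div]
      refine h.congr ?_
      intro k
      rw [G_eq]
  · intro z₀ hz₀
    obtain ⟨E, hE⟩ : ∃ E, E = max 1 (-Real.log (z₀ * H981.mu)) := ⟨_, rfl⟩
    have hE0 : 0 < E := by rw [hE]; exact lt_of_lt_of_le one_pos (le_max_left _ _)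
    obtain ⟨K, hK, h⟩ := V11252.SAW.GA_bounds E hE0
    refine ⟨K, ?_⟩
    intro z hz0 hz1 k hk
    have hz : 0 < z := lt_of_lt_of_le hz₀ hz0
    have he0 := hpos z hz hz1
    have hlz' := hlz z hz
    have hxi : Y981.L2.xi z = 1 / Y981.L2.mass (-Real.log (z * H981.mu)) := rfl
    obtain ⟨e, he⟩ : ∃ e, e = -Real.log (z * H981.mu) := ⟨_, rfl⟩
    rw [← he] at he0 hlz' hxi
    have heE : e ≤ E := by
      rw [hE]
      refine le_trans ?_ (le_max_right _ _)
      rw [he]
      have h3 : z₀ * H981.mu ≤ z * H981.mu := mul_le_mul_of_nonneg_right hz0 hmu.le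
      have := Real.log_le_log (by positivity) h3
      linarith
    obtain ⟨h0, h1, h2⟩ := h e z he0 heE hz hlz' k hk
    have hte : 1 / H981.mu - z ≤ e := by rw [he]; exact Y981.L2.t_le_e hz hz1
    have ht0 : 0 < 1 / H981.mu - z := by linarith
    have hLg1 := V11252.SAW.one_le_Lk hk he0
    have hLg : V11252.SAW.Lk k e ≤ Real.log (2 + k + 1 / (1 / H981.mu - z)) := by
      unfold V11252.SAW.Lk
      apply Real.log_le_log (by positivity)
      have := one_div_le_one_div_of_le ht0 hte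
      linarith
    have hLg2 : V11252.SAW.Lk k e ^ 2 ≤ Real.log (2 + k + 1 / (1 / H981.mu - z)) ^ 2 :=
      pow_le_pow_left₀ (by linarith) hLg 2
    have u1 := mul_le_mul_of_nonneg_left hLg2 hK
    have e1 : 2 * (k : ℝ) / Y981.L2.xi z = 2 * k * Y981.L2.mass e := by
      rw [hxi, div_div_eq_mul_div, div_one]
    have e2 : 4 * (k : ℝ) / Y981.L2.xi z = 4 * k * Y981.L2.mass e := by
      rw [hxi, div_div_eq_mul_div, div_one]
    rw [hGA, e1, e2]
    refine ⟨?_, ?_, ?_⟩
    · refine h0.congr ?_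
      intro n
      rw [pa_eq (by omega)]
    · refine le_trans (Real.exp_le_exp.2 ?_) h1
      linarith
    · refine h2.trans (Real.exp_le_exp.2 ?_)
      linarith

end Pool.Agent.Results.MP_f6626d_co.AreaSeries
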