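import Pool.Agent.H315.SAW.PolyFin
import Pool.Agent.Y981.L2.Area1

/-!
# Self-avoiding polygons on the square lattice: prescribed shapes and small areas

Let `ξ_m` be the correlation length of the self-avoiding walk on `ℤ²` at distance `1/m` from the
critical point.  There are a dilation factor `D ≤ K ξ_m (log m)^2` and a time `M ≥ 2 m` such that
the uniform self-avoiding polygon of perimeter `M P` follows every given coarse polygon of perimeter
`P`, dilated by `D`, with probability at least `exp (- K P (log m)^3)`.  Thin coarse rectangles give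
a lower bound for the probability that the area is small, of the form predicted by the conjectured
limit law (the Airy distribution).
-/

set_option autoImplicit false

namespace Pool.Agent.Results.MP_f6626d_co.ShapesAndSmallAreas

open Filter Topology

/-- `ω` is an `n`-step self-avoiding walk on `ℤ²` started at the origin. -/
def IsSAW (n : ℕ) (ω : Fin (n + 1) → ℤ × ℤ) : Prop :=
  ω 0 = (0, 0) ∧
  (∀ i : Fin n, |(ω i.succ).1 - (ω i.castSucc).1| + |(ω i.succ).2 - (ω i.castSucc).2| = 1) ∧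
  Function.Injective ω

/-- `c_n`: the number of `n`-step self-avoiding walks from the origin -/
noncomputable def c (n : ℕ) : ℕ := Nat.card {ω : Fin (n + 1) → ℤ × ℤ // IsSAW n ω}

/-- `c_n(x)`: the number of `n`-step self-avoiding walks from the origin to `x` -/
noncomputable def cx (n : ℕ) (x : ℤ × ℤ) : ℕ :=
  Nat.card {ω : Fin (n + 1) → ℤ × ℤ // IsSAW n ω ∧ ω (Fin.last n) = x}

/-- the two-point function `G_z(x) = ∑_n c_n(x) z^n` -/
noncomputable def G (z : ℝ) (x : ℤ × ℤ) : ℝ := ∑' n : ℕ, (cx n x : ℝ) * z ^ n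

/-- a self-avoiding polygon of perimeter `m`, rooted at the origin and oriented: a closed
nearest-neighbour loop on `ℤ²` with `m` steps that visits no vertex twice -/
def IsLoop (m : ℕ) (f : ZMod m → ℤ × ℤ) : Prop :=
  f 0 = 0 ∧ Function.Injective f ∧
    ∀ i : ZMod m, |(f (i + 1)).1 - (f i).1| + |(f (i + 1)).2 - (f i).2| = 1

/-- `f` follows the dilated coarse polygon `D Γ` at speed `M`: `f(M i) = D Γ(i)`, and `f(t)` stays
within distance `D` (maximum norm) from `D Γ(i)` for `M i ≤ t < M (i + 1)`. -/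
def Follows (D M P : ℕ) (Γ : ZMod P → ℤ × ℤ) (f : ZMod (M * P) → ℤ × ℤ) : Prop :=
  ∀ (i : ZMod P) (t : ZMod (M * P)), M * i.val ≤ t.val → t.val < M * (i.val + 1) →
    (t.val = M * i.val → f t = (D * (Γ i).1, D * (Γ i).2)) ∧
    |(f t).1 - D * (Γ i).1| ≤ D ∧ |(f t).2 - D * (Γ i).2| ≤ D

/-- the probability that the uniform polygon of perimeter `M P` follows `D Γ` -/
noncomputable def PFollow (D M P : ℕ) (Γ : ZMod P → ℤ × ℤ) : ℝ :=
  ({f : ZMod (M * P) → ℤ × ℤ | IsLoop (M * P) f ∧ Follows D M P Γ f}.ncard : ℝ) /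
    ({f : ZMod (M * P) → ℤ × ℤ | IsLoop (M * P) f}.ncard : ℝ)

/-- the edge from `f k` to `f (k+1)` is horizontal, joins the columns `x = a` and `x = a + 1`, and
has height larger than `b`: it lies above the unit cell `[a, a+1] × [b, b+1]` -/
def Above (m : ℕ) (f : ZMod m → ℤ × ℤ) (a b : ℤ) (k : ZMod m) : Prop :=
  (((f k).1 = a ∧ (f (k + 1)).1 = a + 1) ∨ ((f k).1 = a + 1 ∧ (f (k + 1)).1 = a)) ∧ b < (f k).2

/-- the unit cell `[a, a+1] × [b, b+1]` is enclosed by the loop: the vertical ray from the cell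
upwards crosses an odd number of edges -/
def Encl (m : ℕ) (f : ZMod m → ℤ × ℤ) (c : ℤ × ℤ) : Prop :=
  Odd (Nat.card {k : ZMod m // Above m f c.1 c.2 k})

/-- the area: the number of unit cells enclosed by the loop -/
noncomputable def area (m : ℕ) (f : ZMod m → ℤ × ℤ) : ℕ := Nat.card {c : ℤ × ℤ // Encl m f c}

/-- the probability that the area of the uniform polygon of perimeter `L` is at most `a` -/
noncomputable def small (L : ℕ) (a : ℝ) : ℝ :=
  ({f : ZMod L → ℤ × ℤ | IsLoop L f ∧ (area L f : ℝ) ≤ a}.ncard : ℝ) /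
    ({f : ZMod L → ℤ × ℤ | IsLoop L f}.ncard : ℝ)

theorem c_eq (n : ℕ) : c n = TH795.EP.c n := TH795.EP2.card_walks n

theorem cx_eq (n : ℕ) (x : ℤ × ℤ) : cx n x = TH795.EP.a n x.1 x.2 := TH795.EP2.card_walks_to n x

theorem G_eq (z : ℝ) (k : ℕ) : G z ((k : ℤ), 0) = Y981.L2.Gz z k 0 := by
  unfold G Y981.L2.Gz
  apply tsum_congr
  intro n
  rw [cx_eq]

theorem loops_pos {L : ℕ} (hL : 1 ≤ L) (h : {f : ZMod L → ℤ × ℤ | IsLoop L f}.Nonempty) :
    (0 : ℝ) < ({f : ZMod L → ℤ × ℤ | IsLoop L f}.ncard : ℝ) := by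
  have h1 := (H315.SAW.loops_bound hL).1
  exact_mod_cast (Set.ncard_pos h1).2 h

/-- **Theorem.** Let `μ = lim c_n^(1/n)`; for `0 < z < 1/μ` the correlation length
`ξ(z) = (lim_k - (1/k) log G_z((k, 0)))^(-1)` exists and is positive and finite.  There is `K` such
that for all `m ≥ 2`, with `ξ_m = ξ(e^(-1/m) / μ)`, there are `D ≤ K ξ_m (log m)^2` and
`2 m ≤ M ≤ 300 m^2` with:
(1) for every self-avoiding polygon `Γ` of perimeter `P` the uniform self-avoiding polygon of
perimeter `M P` follows `D Γ` with probability at least `exp (- K P (log m)^3)`;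
(2) for every `N ≥ 2` the area of the uniform self-avoiding polygon of perimeter `2 n`, `n = M N`,
is at most `K n (ξ_m (log m)^2)^2 / m` with probability at least `exp (- K N (log m)^3)` (and
`N ≤ n / (2 m)`). -/
theorem result : ∃ (μ : ℝ) (ξ : ℝ → ℝ), 0 < μ ∧
    Tendsto (fun n : ℕ => (c n : ℝ) ^ (1 / (n : ℝ))) atTop (𝓝 μ) ∧
    (∀ z : ℝ, 0 < z → z < 1 / μ → 0 < ξ z ∧
      Tendsto (fun k : ℕ => - Real.log (G z ((k : ℤ), 0)) / k) atTop (𝓝 (1 / ξ z))) ∧
    ∃ K : ℝ, 0 < K ∧ ∀ m : ℕ, 2 ≤ m → ∀ x : ℝ, x = ξ (Real.exp (-1 / m) / μ) →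
      ∃ D M : ℕ, 1 ≤ D ∧ (D : ℝ) ≤ K * x * Real.log m ^ 2 ∧ 2 * m ≤ M ∧ M ≤ 300 * m ^ 2 ∧
        (∀ (P : ℕ) (Γ : ZMod P → ℤ × ℤ), 3 ≤ P → IsLoop P Γ →
          Real.exp (-(K * P * Real.log m ^ 3)) ≤ PFollow D M P Γ) ∧
        ∀ N n : ℕ, 2 ≤ N → n = M * N →
          Real.exp (-(K * N * Real.log m ^ 3)) ≤
            small (2 * n) (K * n * (x * Real.log m ^ 2) ^ 2 / m) := by
  have hmu := H981.mu_pos
  obtain ⟨K1, hK1, h1⟩ := H315.SAW.poly_main
  refine ⟨H981.mu, Y981.L2.xi, hmu, ?_, ?_, 2 * K1 + 3 * K1 ^ 2, by positivity, fun m hm x hx => ?_⟩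
  · have h := H981.tendsto_root
    refine h.congr ?_
    intro n
    rw [c_eq, TH795.EP.c_eq]
  · intro z hz hz1
    have he : 0 < -Real.log (z * H981.mu) := by
      have h1 : z * H981.mu < 1 := by rwa [lt_div_iff₀ hmu] at hz1
      have h2 := Real.log_neg (mul_pos hz hmu) h1
      linarith
    have hm := Y981.L2.mass_pos he
    constructor
    · unfold Y981.L2.xi
      positivity
    · have h := Y981.L2.G_tendsto hz hz1
      unfold Y981.L2.xi
      rw [one_div_one_div]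
      refine h.congr ?_
      intro k
      rw [G_eq]
  have hxi : x = 1 / H315.SAW.ms m := by
    rw [hx]
    have e := Y981.L2.e_z (1 / (m : ℝ))
    have e2 : -(1 / (m : ℝ)) = -1 / m := by ring
    rw [e2] at e
    unfold Y981.L2.xi H315.SAW.ms
    rw [e]
  have hms := H315.SAW.ms_pos hm
  have hx0 : 0 < x := by rw [hxi]; positivity
  have hm0 : (0 : ℝ) < m := by exact_mod_cast (by omega : 0 < m)
  have e1 : x * Real.log m ^ 2 = Real.log m ^ 2 / H315.SAW.ms m := by rw [hxi]; ring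
  obtain ⟨D, M, a1, a2, a3, a4, a5⟩ := h1 m hm
  rw [← e1] at a2
  obtain ⟨y, hy⟩ : ∃ y, y = x * Real.log m ^ 2 := ⟨_, rfl⟩
  have hlm : 0 < Real.log (m : ℝ) := Real.log_pos (by exact_mod_cast (by omega : 1 < m))
  have hy0 : 0 < y := by rw [hy]; positivity
  rw [← hy] at a2
  obtain ⟨L, hL⟩ : ∃ L, L = Real.log (m : ℝ) ^ 3 := ⟨_, rfl⟩
  have hL0 : 0 < L := by rw [hL]; positivity
  have hFf : ∀ (P : ℕ) (Γ : ZMod P → ℤ × ℤ) (f : ZMod (M * P) → ℤ × ℤ),
      H315.SAW.FollowsC D M P Γ f ↔ Follows D M P Γ f := fun P Γ f => Iff.rfl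
  rw [← hL] at a5 ⊢
  refine ⟨D, M, a1, ?_, a3, a4, ?_, ?_⟩
  · refine a2.trans ?_
    rw [hy]
    have : 0 ≤ (K1 + 3 * K1 ^ 2) * (x * Real.log m ^ 2) := by positivity
    linarith
  · intro P Γ hP hΓ
    obtain ⟨b0, b1⟩ := a5 P Γ hP hΓ
    unfold PFollow
    change 0 < ({f : ZMod (M * P) → ℤ × ℤ | IsLoop (M * P) f}.ncard : ℝ) at b0
    rw [le_div_iff₀ b0]
    refine le_trans ?_ b1
    apply mul_le_mul_of_nonneg_right _ b0.le
    apply Real.exp_le_exp.2
    have : 0 ≤ (K1 + 3 * K1 ^ 2) * P * L := by positivity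
    linarith
  · intro N n hN hn
    have hL2 : 2 * n = M * (2 * N) := by rw [hn]; ring
    obtain ⟨b0, b1⟩ := a5 (2 * N) (H315.SAW.rc N) (by omega) (H315.SAW.rc_loop hN)
    have hMp : 0 < M := by omega
    have hLp : 0 < M * (2 * N) := by positivity
    have : NeZero (M * (2 * N)) := ⟨hLp.ne'⟩
    rw [hL2]
    unfold small
    change 0 < ({f : ZMod (M * (2 * N)) → ℤ × ℤ | IsLoop (M * (2 * N)) f}.ncard : ℝ) at b0
    rw [le_div_iff₀ b0]
    have hsub : ({f | H315.SAW.IsLoop (M * (2 * N)) f ∧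
        H315.SAW.FollowsC D M (2 * N) (H315.SAW.rc N) f}.ncard : ℝ) ≤
        ({f : ZMod (M * (2 * N)) → ℤ × ℤ | IsLoop (M * (2 * N)) f ∧
          (area (M * (2 * N)) f : ℝ) ≤ (2 * K1 + 3 * K1 ^ 2) * n * y ^ 2 / m}.ncard : ℝ) := by
      have hfin := (H315.SAW.loops_bound (L := M * (2 * N)) hLp).1
      have h3 : {f | H315.SAW.IsLoop (M * (2 * N)) f ∧
          H315.SAW.FollowsC D M (2 * N) (H315.SAW.rc N) f} ⊆
          {f : ZMod (M * (2 * N)) → ℤ × ℤ | IsLoop (M * (2 * N)) f ∧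
          (area (M * (2 * N)) f : ℝ) ≤ (2 * K1 + 3 * K1 ^ 2) * n * y ^ 2 / m} := by
        rintro f ⟨hf1, hf2⟩
        refine ⟨hf1, ?_⟩
        have c1 := H315.SAW.rc_box hMp hN hf2
        have c2 := Y981.L2.area_le_box (f := f) hf1.2.2
          (x0 := -(D : ℤ)) (x1 := 2 * D) (y0 := -(D : ℤ)) (y1 := D * N)
          (fun i => ⟨(c1 i).1, (c1 i).2.1⟩) (fun i => ⟨(c1 i).2.2.1, (c1 i).2.2.2⟩)
        have c3 : area (M * (2 * N)) f ≤ 6 * N * D ^ 2 := by
          refine le_trans (show area (M * (2 * N)) f ≤ _ from c2) ?_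
          have d1 : (2 * (D : ℤ) - -(D : ℤ)).toNat = 3 * D := by omega
          have d2 : ((D : ℤ) * N - -(D : ℤ)) = ((D * N + D : ℕ) : ℤ) := by push_cast; ring
          rw [d1, d2, Int.toNat_natCast]
          have d3 : D * N + D ≤ 2 * (D * N) := by nlinarith
          calc 3 * D * (D * N + D) ≤ 3 * D * (2 * (D * N)) := Nat.mul_le_mul_left _ d3
            _ = 6 * N * D ^ 2 := by ring
        have c4 : (area (M * (2 * N)) f : ℝ) ≤ 6 * N * D ^ 2 := by exact_mod_cast c3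
        refine c4.trans ?_
        rw [le_div_iff₀ hm0]
        have hD0 : (0 : ℝ) ≤ D := Nat.cast_nonneg D
        have hN0 : (0 : ℝ) ≤ N := Nat.cast_nonneg N
        have c5 : (D : ℝ) ^ 2 ≤ (K1 * y) ^ 2 := pow_le_pow_left₀ hD0 a2 2
        have c6 : 2 * (N : ℝ) * m ≤ n := by
          have : 2 * N * m ≤ n := by rw [hn]; nlinarith
          exact_mod_cast this
        calc 6 * (N : ℝ) * D ^ 2 * m = 3 * (2 * N * m) * D ^ 2 := by ring
          _ ≤ 3 * n * (K1 * y) ^ 2 := by gcongr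
          _ = 3 * K1 ^ 2 * n * y ^ 2 := by ring
          _ ≤ (2 * K1 + 3 * K1 ^ 2) * n * y ^ 2 := by
            have : 0 ≤ 2 * K1 * n * y ^ 2 := by positivity
            linarith
      exact_mod_cast Set.ncard_le_ncard h3 (hfin.subset fun f h => h.1)
    rw [← hy]
    refine le_trans ?_ hsub
    refine le_trans ?_ b1
    apply mul_le_mul_of_nonneg_right _ b0.le
    apply Real.exp_le_exp.2
    push_cast
    have : 0 ≤ 3 * K1 ^ 2 * N * L := by positivity
    linarith

end Pool.Agent.Results.MP_f6626d_co.ShapesAndSmallAreas
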